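import Pool.Agent.helper1.PR.Defs

/-! [J4] local averages against cell averages. -/

namespace Pool.Agent.helper1.PR

open Finset

private theorem pair_h14 {α β : Type*} [DecidableEq β] (X : Finset α) (π : α → β)
    (f : α → ℝ) (ψ : β → ℝ) :
    ∑ x ∈ X, f x * ψ (π x) = ∑ x ∈ X, dens X π f (π x) * ψ (π x) := by
  classical
  rw [← sum_fiberwise_of_maps_to (t := X.image π) (fun x hx => mem_image_of_mem π hx),
    ← sum_fiberwise_of_maps_to (t := X.image π) (fun x hx => mem_image_of_mem π hx)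
      (fun x => dens X π f (π x) * ψ (π x))]
  refine sum_congr rfl fun b hb => ?_
  have h1 : ∑ x ∈ X with π x = b, f x * ψ (π x) = (∑ x ∈ X with π x = b, f x) * ψ b := by
    rw [sum_mul]
    refine sum_congr rfl fun x hx => ?_
    rw [(mem_filter.1 hx).2]
  have h2 : ∑ x ∈ X with π x = b, dens X π f (π x) * ψ (π x) =
      #{x ∈ X | π x = b} * (dens X π f b * ψ b) := by
    rw [← nsmul_eq_mul, ← sum_const]
    refine sum_congr rfl fun x hx => ?_
    rw [(mem_filter.1 hx).2]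
  rw [h1, h2]
  obtain ⟨x, hx, rfl⟩ := mem_image.1 hb
  have h3 : (#{y ∈ X | π y = π x} : ℝ) ≠ 0 := by
    have : 0 < #{y ∈ X | π y = π x} := card_pos.2 ⟨x, by simp [hx]⟩
    exact_mod_cast this.ne'
  unfold dens
  field_simp

private theorem abs_dens_h14 {α β : Type*} [DecidableEq β] (X : Finset α) (π : α → β)
    (f : α → ℝ) (hf : ∀ x, |f x| ≤ 1) (b : β) : |dens X π f b| ≤ 1 := by
  unfold dens
  rw [abs_div, Nat.abs_cast]
  refine div_le_one_of_le₀ ?_ (Nat.cast_nonneg _)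
  refine (abs_sum_le_sum_abs _ _).trans ((sum_le_sum fun x _ => hf x).trans ?_)
  simp

private theorem sum_shift_h14 (F : ℤ√2 → ℝ) (hF : ∀ y, 0 ≤ F y) (X B : Finset (ℤ√2))
    (h0 : ∀ y, y ∉ X → F y = 0) (c : ℤ√2) : ∑ x ∈ B, F (x + c) ≤ ∑ y ∈ X, F y := by
  classical
  have h1 : ∑ x ∈ B, F (x + c) = ∑ y ∈ B.map (addRightEmbedding c), F y := by
    rw [sum_map]; rfl
  rw [h1]
  have h2 : ∑ y ∈ B.map (addRightEmbedding c), F y =
      ∑ y ∈ (B.map (addRightEmbedding c)).filter (· ∈ X), F y := by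
    symm
    refine sum_filter_of_ne fun y _ hy => ?_
    by_contra hn
    exact hy (h0 y hn)
  rw [h2]
  refine sum_le_sum_of_subset_of_nonneg ?_ fun y _ _ => hF y
  intro y hy
  exact (mem_filter.1 hy).2

private theorem locav_h14 (ν l : ℕ) (g : ℤ√2 → ℝ) (x : ℤ√2) :
    locav ν l g x = (∑ p ∈ range l ×ˢ range l,
      g (x + ⟨(ν : ℤ) * (p.1 : ℕ), (ν : ℤ) * (p.2 : ℕ)⟩)) / (l : ℝ) ^ 2 := by
  unfold locav
  rw [sum_product]

private theorem sum_locav_h14 {ν l : ℕ} (hl : 0 < l) (F : ℤ√2 → ℝ) (X B : Finset (ℤ√2))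
    (h0 : ∀ y, y ∉ X → F y = 0) :
    ∑ x ∈ B, (locav ν l F x) ^ 2 ≤ ∑ y ∈ X, (F y) ^ 2 := by
  have hl' : (0 : ℝ) < l := by exact_mod_cast hl
  have h1 : ∀ x, (locav ν l F x) ^ 2 ≤ (∑ p ∈ range l ×ˢ range l,
      (F (x + ⟨(ν : ℤ) * (p.1 : ℕ), (ν : ℤ) * (p.2 : ℕ)⟩)) ^ 2) / (l : ℝ) ^ 2 := by
    intro x
    rw [locav_h14, div_pow]
    have h2 := sq_sum_le_card_mul_sum_sq (s := range l ×ˢ range l)
      (f := fun p : ℕ × ℕ => F (x + ⟨(ν : ℤ) * (p.1 : ℕ), (ν : ℤ) * (p.2 : ℕ)⟩))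
    rw [card_product, card_range] at h2
    rw [div_le_div_iff₀ (by positivity) (by positivity)]
    push_cast at h2
    calc _ ≤ ((l : ℝ) * l * ∑ p ∈ range l ×ˢ range l,
          (F (x + ⟨(ν : ℤ) * (p.1 : ℕ), (ν : ℤ) * (p.2 : ℕ)⟩)) ^ 2) * (l : ℝ) ^ 2 := by
            gcongr
      _ = _ := by ring
  refine (sum_le_sum fun x _ => h1 x).trans ?_
  rw [← sum_div, sum_comm, div_le_iff₀ (by positivity)]
  have h3 : ∀ p ∈ range l ×ˢ range l, ∑ x ∈ B,
      (F (x + ⟨(ν : ℤ) * (p.1 : ℕ), (ν : ℤ) * (p.2 : ℕ)⟩)) ^ 2 ≤ ∑ y ∈ X, (F y) ^ 2 := by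
    intro p _
    exact sum_shift_h14 (fun y => (F y) ^ 2) (fun y => sq_nonneg _) X B
      (fun y hy => by simp [h0 y hy]) _
  refine (sum_le_sum h3).trans ?_
  rw [sum_const, card_product, card_range, nsmul_eq_mul]
  push_cast
  apply le_of_eq
  ring

/-- the positions `i < l` whose block of side `a` is not contained in `[X, X + ν l)` -/
private theorem card_bad_h14 {ν l a : ℕ} (hν : 0 < ν) (ha : 0 < a) (hνa : ν ∣ a) (X : ℤ) :
    #{i ∈ range l | ¬ (X ≤ (X + ν * (i : ℕ)) / a * a ∧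
      ((X + ν * (i : ℕ)) / a + 1) * a ≤ X + ν * l)} ≤ 2 * (a / ν) := by
  obtain ⟨c, rfl⟩ := hνa
  rw [Nat.mul_div_cancel_left _ hν]
  have ha' : (0 : ℤ) < ((ν * c : ℕ) : ℤ) := by exact_mod_cast ha
  have hsub : {i ∈ range l | ¬ (X ≤ (X + ν * (i : ℕ)) / ((ν * c : ℕ) : ℤ) * ((ν * c : ℕ) : ℤ) ∧
      ((X + ν * (i : ℕ)) / ((ν * c : ℕ) : ℤ) + 1) * ((ν * c : ℕ) : ℤ) ≤ X + ν * l)} ⊆
      range c ∪ (Ico (l - c) l) := by
    intro i hi
    rw [mem_filter, mem_range] at hi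
    obtain ⟨hil, hi⟩ := hi
    rw [mem_union, mem_range, mem_Ico]
    have h1 := Int.mul_ediv_add_emod (X + ν * (i : ℕ)) ((ν * c : ℕ) : ℤ)
    have h2 := Int.emod_nonneg (X + ν * (i : ℕ)) ha'.ne'
    have h3 := Int.emod_lt_of_pos (X + ν * (i : ℕ)) ha'
    have hν' : (0 : ℤ) < ν := by exact_mod_cast hν
    by_contra hcon
    push Not at hcon
    obtain ⟨hc1, hc2⟩ := hcon
    have hc2' : i + c < l := by
      by_contra hge
      have := hc2 (by omega)
      omega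
    apply hi
    generalize hq : (X + ν * (i : ℕ)) / ((ν * c : ℕ) : ℤ) = q at h1 ⊢
    generalize hr : (X + ν * (i : ℕ)) % ((ν * c : ℕ) : ℤ) = r' at h1 h2 h3
    have hci : ((ν * c : ℕ) : ℤ) ≤ ν * (i : ℕ) := by
      push_cast
      exact mul_le_mul_of_nonneg_left (by exact_mod_cast hc1) hν'.le
    have hcl : ν * (i : ℤ) + ((ν * c : ℕ) : ℤ) ≤ ν * l := by
      push_cast
      rw [← mul_add]
      exact mul_le_mul_of_nonneg_left (by exact_mod_cast hc2'.le) hν'.le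
    constructor
    · nlinarith
    · nlinarith
  refine (card_le_card hsub).trans ((card_union_le _ _).trans ?_)
  rw [card_range, Nat.card_Ico]
  omega

theorem sum_locav_sq {M s Λ ν l : ℕ} (hM : 0 < M) (hs : 0 < s) (hΛ : 0 < Λ) (hν : 0 < ν)
    (hl : 0 < l) (hνM : ν ∣ M) (h : M * s ∣ Λ) (hνl : ν * l ≤ Λ) (g : ℤ√2 → ℝ)
    (hg : ∀ x, |g x| ≤ 1) (hg0 : ∀ x, x ∉ box Λ → g x = 0) (B : Finset (ℤ√2)) :
    ∑ x ∈ B, (locav ν l g x) ^ 2 ≤
      2 * ∑ x ∈ box Λ, (cav M s Λ g x) ^ 2 +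
        2000 * ((Λ : ℝ) / (s * ν * l)) ^ 2 * #(box Λ) := by
  classical
  obtain ⟨t, ht⟩ := h
  -- the side of the small squares
  set a : ℕ := M * t with ha
  have hΛa : Λ = s * a := by rw [ht, ha]; ring
  have hapos : 0 < a := by
    rcases Nat.eq_zero_or_pos a with h0 | h0
    · rw [h0, mul_zero] at hΛa; omega
    · exact h0
  have hνa : ν ∣ a := hνM.trans ⟨t, rfl⟩
  have ha' : (0 : ℤ) < a := by exact_mod_cast hapos
  have hs' : (0 : ℤ) < s := by exact_mod_cast hs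
  have hν' : (0 : ℤ) < ν := by exact_mod_cast hν
  have hlr : (0 : ℝ) < l := by exact_mod_cast hl
  have hνr : (0 : ℝ) < ν := by exact_mod_cast hν
  have hsr : (0 : ℝ) < s := by exact_mod_cast hs
  have har : (0 : ℝ) < a := by exact_mod_cast hapos
  have hdiv : ∀ u : ℤ, u * s / (Λ : ℤ) = u / a := by
    intro u
    rw [hΛa]; push_cast
    rw [mul_comm u, Int.mul_ediv_mul_of_pos _ _ hs']
  -- the two parts of `g`
  set gs : ℤ√2 → ℝ := fun x => if x ∈ box Λ then cav M s Λ g x else 0 with hgs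
  set k : ℤ√2 → ℝ := fun x => g x - gs x with hk
  have hgs0 : ∀ x, x ∉ box Λ → gs x = 0 := fun x hx => by simp [hgs, hx]
  have hk0 : ∀ x, x ∉ box Λ → k x = 0 := fun x hx => by simp [hk, hgs0 x hx, hg0 x hx]
  have hk2 : ∀ x, |k x| ≤ 2 := by
    intro x
    have h1 : |gs x| ≤ 1 := by
      simp only [hgs]
      split_ifs
      · exact abs_dens_h14 _ _ g hg _
      · simp
    have := abs_sub (g x) (gs x)
    have := hg x
    simp only [hk]
    linarith
  have hlin : ∀ x, locav ν l g x = locav ν l gs x + locav ν l k x := by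
    intro x
    rw [locav_h14, locav_h14, locav_h14, ← add_div, ← sum_add_distrib]
    congr 1
    refine sum_congr rfl fun p _ => ?_
    simp [hk]
  have hpart1 : ∑ x ∈ B, (locav ν l gs x) ^ 2 ≤ ∑ x ∈ box Λ, (cav M s Λ g x) ^ 2 := by
    refine (sum_locav_h14 hl gs (box Λ) B hgs0).trans (le_of_eq ?_)
    refine sum_congr rfl fun x hx => ?_
    simp [hgs, hx]
  -- the good positions
  set Gd : ℤ → Finset ℕ := fun X => {i ∈ range l | X ≤ (X + ν * (i : ℕ)) / a * a ∧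
      ((X + ν * (i : ℕ)) / a + 1) * a ≤ X + ν * l} with hGd
  -- sum over the good pairs vanishes
  have hgood : ∀ x : ℤ√2, ∑ p ∈ Gd x.re ×ˢ Gd x.im,
      k (x + ⟨(ν : ℤ) * (p.1 : ℕ), (ν : ℤ) * (p.2 : ℕ)⟩) = 0 := by
    intro x
    set ψ : ℤ × ℤ × ℤ × ℤ → ℝ := fun ℓ =>
      if ((ν : ℤ) ∣ ℓ.1 - x.re ∧ (ν : ℤ) ∣ ℓ.2.1 - x.im) ∧
        (x.re ≤ ℓ.2.2.1 * a ∧ (ℓ.2.2.1 + 1) * a ≤ x.re + ν * l) ∧
        (x.im ≤ ℓ.2.2.2 * a ∧ (ℓ.2.2.2 + 1) * a ≤ x.im + ν * l) then 1 else 0 with hψ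
    have hz : ∑ y ∈ box Λ, k y * ψ (lab M s Λ y) = 0 := by
      have h1 := pair_h14 (box Λ) (lab M s Λ) g ψ
      have h2 : ∑ y ∈ box Λ, k y * ψ (lab M s Λ y) = ∑ y ∈ box Λ, g y * ψ (lab M s Λ y) -
          ∑ y ∈ box Λ, dens (box Λ) (lab M s Λ) g (lab M s Λ y) * ψ (lab M s Λ y) := by
        rw [← sum_sub_distrib]
        refine sum_congr rfl fun y hy => ?_
        have : gs y = dens (box Λ) (lab M s Λ) g (lab M s Λ y) := by
          simp [hgs, hy, cav, cden]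
        simp only [hk]
        rw [this]; ring
      rw [h2, h1, sub_self]
    have hM' : (0 : ℤ) < M := by exact_mod_cast hM
    have hνM' : (ν : ℤ) ∣ M := by exact_mod_cast hνM
    have hψy : ∀ y : ℤ√2, k y * ψ (lab M s Λ y) =
        if ((ν : ℤ) ∣ y.re - x.re ∧ (ν : ℤ) ∣ y.im - x.im) ∧
        (x.re ≤ y.re / a * a ∧ (y.re / a + 1) * a ≤ x.re + ν * l) ∧
        (x.im ≤ y.im / a * a ∧ (y.im / a + 1) * a ≤ x.im + ν * l) then k y else 0 := by
      intro y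
      have e1 : ∀ u v : ℤ, ((ν : ℤ) ∣ u % M - v ↔ (ν : ℤ) ∣ u - v) := by
        intro u v
        have : u - v = (u % M - v) + M * (u / M) := by
          have := Int.emod_add_mul_ediv u M
          linarith
        rw [this]
        exact (dvd_add_left (hνM'.mul_right _)).symm
      simp only [hψ, lab, hdiv, e1]
      split_ifs <;> simp
    rw [← hz, sum_congr rfl fun y _ => hψy y, ← sum_filter]
    -- reindex
    have hk' : ∑ p ∈ Gd x.re ×ˢ Gd x.im,
        k (x + ⟨(ν : ℤ) * (p.1 : ℕ), (ν : ℤ) * (p.2 : ℕ)⟩) =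
        ∑ p ∈ (Gd x.re ×ˢ Gd x.im).filter
          (fun p => x + ⟨(ν : ℤ) * (p.1 : ℕ), (ν : ℤ) * (p.2 : ℕ)⟩ ∈ box Λ),
        k (x + ⟨(ν : ℤ) * (p.1 : ℕ), (ν : ℤ) * (p.2 : ℕ)⟩) := by
      symm
      refine sum_filter_of_ne fun p _ hp => ?_
      by_contra hn
      exact hp (hk0 _ hn)
    rw [hk']
    refine sum_bij (fun p _ => x + ⟨(ν : ℤ) * (p.1 : ℕ), (ν : ℤ) * (p.2 : ℕ)⟩) ?_ ?_ ?_ ?_
    · intro p hp
      rw [mem_filter, mem_product] at hp
      obtain ⟨⟨h1, h2⟩, h3⟩ := hp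
      simp only [hGd, mem_filter, mem_range] at h1 h2
      rw [mem_filter]
      refine ⟨h3, ⟨⟨?_, ?_⟩, ?_, ?_⟩⟩
      · simp
      · simp
      · simpa using h1.2
      · simpa using h2.2
    · intro p _ q _ hpq
      have h1 := congrArg Zsqrtd.re hpq
      have h2 := congrArg Zsqrtd.im hpq
      simp only [Zsqrtd.re_add, Zsqrtd.im_add, add_right_inj] at h1 h2
      have h3 := mul_left_cancel₀ hν'.ne' h1
      have h4 := mul_left_cancel₀ hν'.ne' h2
      exact Prod.ext (by exact_mod_cast h3) (by exact_mod_cast h4)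
    · intro y hy
      rw [mem_filter] at hy
      obtain ⟨hyb, ⟨⟨i, hi⟩, ⟨j, hj⟩⟩, ⟨h1, h2⟩, ⟨h3, h4⟩⟩ := hy
      have key : ∀ (u X i : ℤ), u - X = ν * i → X ≤ u / a * a → (u / a + 1) * a ≤ X + ν * l →
          0 ≤ i ∧ i < l := by
        intro u X i hi h1 h2
        have e1 := Int.mul_ediv_add_emod u (a : ℤ)
        have e2 := Int.emod_nonneg u ha'.ne'
        have e3 := Int.emod_lt_of_pos u ha'
        have e4 : X ≤ u := by nlinarith
        have e5 : u < X + ν * l := by nlinarith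
        constructor
        · by_contra hneg
          push Not at hneg
          nlinarith
        · by_contra hneg
          push Not at hneg
          nlinarith
      obtain ⟨i0, i1⟩ := key _ _ _ hi h1 h2
      obtain ⟨j0, j1⟩ := key _ _ _ hj h3 h4
      obtain ⟨i', rfl⟩ := Int.eq_ofNat_of_zero_le i0
      obtain ⟨j', rfl⟩ := Int.eq_ofNat_of_zero_le j0
      have hy1 : x.re + ν * (i' : ℤ) = y.re := by linarith
      have hy2 : x.im + ν * (j' : ℤ) = y.im := by linarith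
      have hyy : x + ⟨(ν : ℤ) * (i' : ℕ), (ν : ℤ) * (j' : ℕ)⟩ = y := by
        ext
        · simpa using hy1
        · simpa using hy2
      refine ⟨(i', j'), ?_, hyy⟩
      rw [mem_filter, mem_product]
      refine ⟨⟨?_, ?_⟩, ?_⟩
      · simp only [hGd, mem_filter, mem_range]
        refine ⟨by exact_mod_cast i1, ?_⟩
        rw [hy1]; exact ⟨h1, h2⟩
      · simp only [hGd, mem_filter, mem_range]
        refine ⟨by exact_mod_cast j1, ?_⟩
        rw [hy2]; exact ⟨h3, h4⟩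
      · show x + ⟨(ν : ℤ) * (i' : ℕ), (ν : ℤ) * (j' : ℕ)⟩ ∈ box Λ
        rw [hyy]; exact hyb
    · intro p _; rfl
  -- pointwise bound for `locav k`
  have hkb : ∀ x, |locav ν l k x| ≤ 8 * ((a : ℝ) / (ν * l)) := by
    intro x
    rw [locav_h14]
    have hsub : Gd x.re ×ˢ Gd x.im ⊆ range l ×ˢ range l :=
      product_subset_product (filter_subset _ _) (filter_subset _ _)
    rw [← sum_sdiff hsub, hgood x, add_zero, abs_div, abs_of_pos (by positivity : (0 : ℝ) < (l : ℝ) ^ 2),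
      div_le_iff₀ (by positivity)]
    have hc : #((range l ×ˢ range l) \ (Gd x.re ×ˢ Gd x.im)) ≤ 4 * (a / ν) * l := by
      have hs1 : (range l ×ˢ range l) \ (Gd x.re ×ˢ Gd x.im) ⊆
          ((range l).filter (fun i => ¬ (x.re ≤ (x.re + ν * (i : ℕ)) / a * a ∧
            ((x.re + ν * (i : ℕ)) / a + 1) * a ≤ x.re + ν * l)) ×ˢ range l) ∪
          (range l ×ˢ (range l).filter (fun i => ¬ (x.im ≤ (x.im + ν * (i : ℕ)) / a * a ∧
            ((x.im + ν * (i : ℕ)) / a + 1) * a ≤ x.im + ν * l))) := by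
        intro p hp
        simp only [mem_sdiff, mem_product, hGd, mem_filter, mem_union] at hp ⊢
        tauto
      refine (card_le_card hs1).trans ((card_union_le _ _).trans ?_)
      rw [card_product, card_product, card_range]
      have b1 := card_bad_h14 (l := l) hν hapos hνa x.re
      have b2 := card_bad_h14 (l := l) hν hapos hνa x.im
      calc _ ≤ 2 * (a / ν) * l + l * (2 * (a / ν)) := by gcongr
        _ = _ := by ring
    refine (abs_sum_le_sum_abs _ _).trans ((sum_le_sum fun p _ => hk2 _).trans ?_)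
    rw [sum_const, nsmul_eq_mul]
    have hc' : (#((range l ×ˢ range l) \ (Gd x.re ×ˢ Gd x.im)) : ℝ) ≤ 4 * (a / ν) * l := by
      have h1 : (#((range l ×ˢ range l) \ (Gd x.re ×ˢ Gd x.im)) : ℝ) ≤
          ((4 * (a / ν) * l : ℕ) : ℝ) := by exact_mod_cast hc
      have h2 : ((a / ν : ℕ) : ℝ) = (a : ℝ) / ν := Nat.cast_div hνa hνr.ne'
      push_cast [h2] at h1
      exact h1
    calc _ ≤ (4 * ((a : ℝ) / ν) * l) * 2 := by gcongr
      _ = 8 * ((a : ℝ) / (ν * l)) * (l : ℝ) ^ 2 := by field_simp; ring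
  -- the support of `locav k`
  set W : Finset (ℤ√2) := ((Ico (2 * (Λ : ℤ) - ν * l) (4 * Λ)) ×ˢ (Ico (-((ν : ℤ) * l)) Λ)).map
    ⟨fun p => (⟨p.1, p.2⟩ : ℤ√2), fun p q h => by
      have h1 := congrArg Zsqrtd.re h
      have h2 := congrArg Zsqrtd.im h
      exact Prod.ext h1 h2⟩ with hW
  have hWcard : (#W : ℝ) ≤ 3 * #(box Λ) := by
    rw [hW, card_map, card_product, Int.card_Ico, Int.card_Ico, card_box]
    have e1 : (4 * (Λ : ℤ) - (2 * Λ - ν * l)).toNat = 2 * Λ + ν * l := by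
      have : (4 * (Λ : ℤ) - (2 * Λ - ν * l)) = ((2 * Λ + ν * l : ℕ) : ℤ) := by push_cast; ring
      rw [this, Int.toNat_natCast]
    have e2 : ((Λ : ℤ) - -((ν : ℤ) * l)).toNat = Λ + ν * l := by
      have : ((Λ : ℤ) - -((ν : ℤ) * l)) = ((Λ + ν * l : ℕ) : ℤ) := by push_cast; ring
      rw [this, Int.toNat_natCast]
    rw [e1, e2]
    have : (2 * Λ + ν * l) * (Λ + ν * l) ≤ 3 * (2 * Λ ^ 2) := by
      calc (2 * Λ + ν * l) * (Λ + ν * l) ≤ (2 * Λ + Λ) * (Λ + Λ) := by gcongr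
        _ = 3 * (2 * Λ ^ 2) := by ring
    exact_mod_cast this
  have hsupp : ∀ x, x ∉ W → locav ν l k x = 0 := by
    intro x hx
    rw [locav_h14]
    have : ∑ p ∈ range l ×ˢ range l, k (x + ⟨(ν : ℤ) * (p.1 : ℕ), (ν : ℤ) * (p.2 : ℕ)⟩) = 0 := by
      refine sum_eq_zero fun p hp => hk0 _ fun hb => hx ?_
      rw [mem_product, mem_range, mem_range] at hp
      rw [mem_box] at hb
      simp only [Zsqrtd.re_add, Zsqrtd.im_add] at hb
      have p1 : (ν : ℤ) * (p.1 : ℕ) ≤ ν * l :=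
        mul_le_mul_of_nonneg_left (by exact_mod_cast hp.1.le) hν'.le
      have p2 : (ν : ℤ) * (p.2 : ℕ) ≤ ν * l :=
        mul_le_mul_of_nonneg_left (by exact_mod_cast hp.2.le) hν'.le
      have p3 : 0 ≤ (ν : ℤ) * (p.1 : ℕ) := by positivity
      have p4 : 0 ≤ (ν : ℤ) * (p.2 : ℕ) := by positivity
      rw [hW, mem_map]
      refine ⟨(x.re, x.im), ?_, ?_⟩
      · rw [mem_product, mem_Ico, mem_Ico]
        refine ⟨⟨?_, ?_⟩, ?_, ?_⟩
        · show 2 * (Λ : ℤ) - ν * l ≤ x.re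
          linarith [hb.1.1]
        · show x.re < 4 * Λ
          linarith [hb.1.2]
        · show -((ν : ℤ) * l) ≤ x.im
          linarith [hb.2.1]
        · show x.im < Λ
          linarith [hb.2.2]
      · rfl
    rw [this, zero_div]
  have hpart2 : ∑ x ∈ B, (locav ν l k x) ^ 2 ≤
      192 * ((Λ : ℝ) / (s * ν * l)) ^ 2 * #(box Λ) := by
    have e1 : ∑ x ∈ B, (locav ν l k x) ^ 2 = ∑ x ∈ B.filter (· ∈ W), (locav ν l k x) ^ 2 := by
      symm
      refine sum_filter_of_ne fun x _ hx => ?_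
      by_contra hn
      exact hx (by rw [hsupp x hn]; simp)
    have e2 : ∑ x ∈ B.filter (· ∈ W), (locav ν l k x) ^ 2 ≤
        ∑ x ∈ W, (8 * ((a : ℝ) / (ν * l))) ^ 2 := by
      refine (sum_le_sum_of_subset_of_nonneg (t := W) (fun x hx => (mem_filter.1 hx).2)
        fun x _ _ => sq_nonneg _).trans ?_
      refine sum_le_sum fun x _ => ?_
      rw [← sq_abs]
      exact pow_le_pow_left₀ (abs_nonneg _) (hkb x) 2
    rw [e1]
    refine e2.trans ?_
    rw [sum_const, nsmul_eq_mul]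
    have e3 : (a : ℝ) / (ν * l) = (Λ : ℝ) / (s * ν * l) := by
      rw [hΛa]; push_cast; field_simp
    rw [e3]
    calc (#W : ℝ) * (8 * ((Λ : ℝ) / (s * ν * l))) ^ 2
        ≤ (3 * #(box Λ)) * (8 * ((Λ : ℝ) / (s * ν * l))) ^ 2 := by gcongr
      _ = _ := by ring
  have hsum : ∑ x ∈ B, (locav ν l g x) ^ 2 ≤ 2 * ∑ x ∈ B, (locav ν l gs x) ^ 2 +
      2 * ∑ x ∈ B, (locav ν l k x) ^ 2 := by
    rw [mul_sum, mul_sum, ← sum_add_distrib]
    refine sum_le_sum fun x _ => ?_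
    rw [hlin x]
    nlinarith [sq_nonneg (locav ν l gs x - locav ν l k x)]
  have hnn : 0 ≤ ((Λ : ℝ) / (s * ν * l)) ^ 2 * #(box Λ) := by positivity
  nlinarith

end Pool.Agent.helper1.PR
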